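import Pool.Agent.V11231.WR.Mealy
import Pool.Agent.Helper948.Erode.Source

set_option autoImplicit false

/-!
# The Mealy automaton of a counter machine
-/

namespace Pool.Agent.V11231.WR

open Pool.Agent.Helper948.Erode (Sys ini)

section

variable {Q : Type} (M : Sys Q Bool) (q0 : Q) (N : ℕ)

/-- pairs of digits -/
abbrev Dg : Type := Bool → Fin M.B

/-- instructions; `none` is the initialisation -/
abbrev Ins : Type := Option (Q × Dg M)

/-- multiplier -/
def mul : Ins M → Bool → ℕ
  | none => fun _ => 0
  | some i => M.a i.1 i.2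

/-- constant -/
def con : Ins M → Bool → ℕ
  | none => ini N
  | some i => M.b i.1 i.2

/-- next state -/
def nx : Ins M → Option Q
  | none => some q0
  | some i => M.nxt i.1 i.2

/-- states of the automaton -/
inductive St : Type
  | sink
  | p
  | G (i : Q × Dg M) (d : Dg M)
  | E (d : Dg M)

/-- kinds of letters -/
inductive Tg : Type
  | s
  | hash
  | H
  | F (q : Q) (d : Dg M) (i : Ins M)
  | R (i : Ins M)

instance [Finite Q] : Finite (St M) := by
  let f : St M → Option (Option (((Q × Dg M) × Dg M) ⊕ Dg M)) := fun a => match a with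
    | .sink => none
    | .p => some none
    | .G i d => some (some (.inl (i, d)))
    | .E d => some (some (.inr d))
  refine Finite.of_injective f ?_
  intro a b h
  cases a <;> cases b <;> simp_all [f]

instance [Finite Q] : Finite (Tg M) := by
  let f : Tg M → Option (Option (Option ((Q × Dg M × Ins M) ⊕ Ins M))) := fun a => match a with
    | .s => none
    | .hash => some none
    | .H => some (some none)
    | .F q d i => some (some (some (.inl (q, d, i))))
    | .R i => some (some (some (.inr i)))
  refine Finite.of_injective f ?_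
  intro a b h
  cases a <;> cases b <;> simp_all [f]

/-- bound for the carries -/
abbrev KK : ℕ := M.l + N + 1

/-- letters: kind and carries -/
abbrev Lt : Type := Tg M × (Fin (KK M N) × Fin (KK M N))

/-- carry as a number -/
def cc (c : Fin (KK M N) × Fin (KK M N)) (j : Bool) : ℕ := if j then c.1 else c.2

/-- the constant part of the computed number -/
def am : St M → Tg M → Bool → ℕ
  | .G i d, .s => fun j => M.a i.1 i.2 j * d j + M.b i.1 i.2 j
  | .E d, .F _ _ i => fun j => mul M i j * d j
  | .E d, .R i => fun j => mul M i j * d j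
  | _, _ => fun _ => 0

/-- is the carry added -/
def em : St M → Tg M → ℕ
  | .E _, .F _ _ _ => 1
  | .E _, .R _ => 1
  | .p, .F _ _ _ => 1
  | .p, .R _ => 1
  | _, _ => 0

/-- is the initial number added -/
def gm : St M → Tg M → Bool → ℕ
  | .p, .s => fun j => if j then 1 else 0
  | _, _ => fun _ => 0

/-- the computed number -/
def vv (σ : St M) (x : Lt M N) (j : Bool) : ℕ :=
  am M σ x.1 j + em M σ x.1 * cc M N x.2 j + gm M σ x.1 j * N

/-- its last digit -/
def dv (v : Bool → ℕ) : Dg M := fun j => ⟨v j % M.B, Nat.mod_lt _ M.hB⟩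

/-- the next state -/
def nst : St M → Tg M → Dg M → St M
  | .sink, _, _ => .sink
  | _, .hash, _ => .p
  | .E _, .F q d _, v => match M.nxt q d with
    | none => .sink
    | some _ => .G (q, d) v
  | .p, .F q d _, v => match M.nxt q d with
    | none => .sink
    | some _ => .G (q, d) v
  | .E _, .R _, v => .E v
  | .p, .R _, v => .E v
  | _, _, _ => .sink

/-- the new kind of the letter -/
def ntg : St M → Tg M → Dg M → Tg M
  | _, .hash, _ => .hash
  | .sink, _, _ => .s
  | _, .H, _ => .H
  | .G i _, .s, v => match M.nxt i.1 i.2 with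
    | none => .s
    | some q => .F q v (some i)
  | .p, .s, v => .F q0 v none
  | .E _, .F q d i, _ => match M.nxt q d with
    | none => .H
    | some _ => .R i
  | .p, .F q d i, _ => match M.nxt q d with
    | none => .H
    | some _ => .R i
  | .E _, .R i, _ => .R i
  | .p, .R i, _ => .R i
  | _, _, _ => .s

/-- the automaton -/
def aut : Mealy (St M) (Lt M N) where
  δ σ x := nst M σ x.1 (dv M (vv M N σ x))
  out σ x := (ntg M q0 σ x.1 (dv M (vv M N σ x)),
    (Fin.ofNat (KK M N) (vv M N σ x true / M.B), Fin.ofNat (KK M N) (vv M N σ x false / M.B)))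

/-- the blank letter -/
def s0 : Lt M N := (.s, (0, 0))

/-- the wall -/
def h0 : Lt M N := (.hash, (0, 0))

theorem vv_sink (x : Lt M N) (j : Bool) : vv M N .sink x j = 0 := by
  obtain ⟨τ, c⟩ := x
  cases τ <;> simp [vv, am, em, gm]

theorem ofNat_zero' (K : ℕ) [NeZero K] : Fin.ofNat K 0 = 0 := rfl

theorem δ_sink (x : Lt M N) : (aut M q0 N).δ .sink x = .sink := by
  obtain ⟨τ, c⟩ := x
  cases τ <;> rfl

theorem run_sink (u : List (Lt M N)) : (aut M q0 N).run .sink u = .sink := by
  induction u with
  | nil => rfl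
  | cons a u ih =>
    change (aut M q0 N).run ((aut M q0 N).δ .sink a) u = _
    rw [δ_sink, ih]

theorem out_sink (x : Lt M N) :
    (aut M q0 N).out .sink x = s0 M N ∨ (aut M q0 N).out .sink x = h0 M N := by
  obtain ⟨τ, c⟩ := x
  have h : ∀ j, vv M N .sink (τ, c) j = 0 := vv_sink M N (τ, c)
  have e : (aut M q0 N).out .sink (τ, c) = (ntg M q0 .sink τ (dv M (vv M N .sink (τ, c))),
      (Fin.ofNat (KK M N) (vv M N .sink (τ, c) true / M.B),
        Fin.ofNat (KK M N) (vv M N .sink (τ, c) false / M.B))) := rfl
  rw [e, h, h, Nat.zero_div]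
  cases τ
  case hash => exact Or.inr rfl
  all_goals exact Or.inl rfl

theorem out_sink_of_ne (x : Lt M N) (hx : x.1 ≠ .hash) :
    (aut M q0 N).out .sink x = s0 M N := by
  obtain ⟨τ, c⟩ := x
  have h : ∀ j, vv M N .sink (τ, c) j = 0 := vv_sink M N (τ, c)
  have e : (aut M q0 N).out .sink (τ, c) = (ntg M q0 .sink τ (dv M (vv M N .sink (τ, c))),
      (Fin.ofNat (KK M N) (vv M N .sink (τ, c) true / M.B),
        Fin.ofNat (KK M N) (vv M N .sink (τ, c) false / M.B))) := rfl
  rw [e, h, h, Nat.zero_div]
  cases τ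
  case hash => exact (hx rfl).elim
  all_goals rfl

theorem vv_hash (σ : St M) (c : Fin (KK M N) × Fin (KK M N)) (j : Bool) :
    vv M N σ (.hash, c) j = 0 := by
  cases σ <;> simp [vv, am, em, gm]

theorem out_hash (σ : St M) (c : Fin (KK M N) × Fin (KK M N)) :
    (aut M q0 N).out σ (.hash, c) = h0 M N := by
  have h : ∀ j, vv M N σ (.hash, c) j = 0 := vv_hash M N σ c
  have e : (aut M q0 N).out σ (.hash, c) = (ntg M q0 σ .hash (dv M (vv M N σ (.hash, c))),
      (Fin.ofNat (KK M N) (vv M N σ (.hash, c) true / M.B),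
        Fin.ofNat (KK M N) (vv M N σ (.hash, c) false / M.B))) := rfl
  rw [e, h, h, Nat.zero_div]
  cases σ <;> rfl

theorem δ_hash (σ : St M) (c : Fin (KK M N) × Fin (KK M N)) (hσ : σ ≠ .sink) :
    (aut M q0 N).δ σ (.hash, c) = .p := by
  cases σ
  case sink => exact (hσ rfl).elim
  all_goals rfl

/-- letters do not become walls -/
theorem out_ne_hash (σ : St M) (x : Lt M N) (hx : x.1 ≠ .hash) :
    ((aut M q0 N).out σ x).1 ≠ .hash := by
  obtain ⟨τ, c⟩ := x
  change ntg M q0 σ τ _ ≠ .hash
  generalize dv M (vv M N σ (τ, c)) = v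
  cases τ
  case hash => exact (hx rfl).elim
  all_goals cases σ
  all_goals simp only [ntg, ne_eq, reduceCtorEq, not_false_eq_true]
  all_goals
    split <;> simp

end

end Pool.Agent.V11231.WR
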