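import Pool.Agent.V11231.WR.Equiv

set_option autoImplicit false

/-!
# The tables of the automaton are computable
-/

namespace Pool.Agent.V11231.WR

open Pool.Agent.Helper948.Erode (Sys ini)

theorem finRange_map {α : Type} {n : ℕ} (g : Fin n → α) (h : ℕ → α) (he : ∀ i : Fin n, g i = h i) :
    (List.finRange n).map g = (List.range n).map h := by
  refine List.ext_getElem (by simp) fun i h1 h2 => ?_
  simp only [List.getElem_map, List.getElem_finRange, List.getElem_range]
  exact he _

theorem primrec_bounded (n : ℕ) (F : ℕ → ℕ) (hF : ∀ i, n ≤ i → F i = 0) : Primrec F := by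
  have h : Primrec fun i => ((List.range n).map F).getD i 0 :=
    (Primrec.list_getD 0).comp (Primrec.const _) Primrec.id
  refine h.of_eq fun i => ?_
  rcases Nat.lt_or_ge i n with hi | hi
  · rw [List.getD_eq_getElem _ _ (by simpa using hi)]
    simp
  · rw [List.getD_eq_default _ _ (by simpa using hi), hF i hi]

section

variable {Q : Type} [Finite Q] (M : Sys Q Bool) (q0 : Q) (N : ℕ)

/-- number of states -/
noncomputable def nS : ℕ := Nat.card (St M)

/-- number of kinds of letters -/
noncomputable def nT : ℕ := Nat.card (Tg M)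

/-- numbering of the states -/
noncomputable def eS : St M ≃ Fin (nS M) := Finite.equivFin (St M)

/-- numbering of the kinds -/
noncomputable def eT : Tg M ≃ Fin (nT M) := Finite.equivFin (Tg M)

/-- number of letters -/
noncomputable def nL : ℕ := nT M * (KK M N * KK M N)

/-- numbering of the letters -/
noncomputable def eL : Lt M N ≃ Fin (nL M N) :=
  ((eT M).prodCongr finProdFinEquiv).trans finProdFinEquiv

/-- table of constants -/
noncomputable def FA (b : Bool) (i : ℕ) : ℕ :=
  if h : i < nS M * nT M then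
    am M ((eS M).symm (finProdFinEquiv.symm ⟨i, h⟩).1) ((eT M).symm (finProdFinEquiv.symm ⟨i, h⟩).2) b
  else 0

/-- table of constants -/
noncomputable def FE (i : ℕ) : ℕ :=
  if h : i < nS M * nT M then
    em M ((eS M).symm (finProdFinEquiv.symm ⟨i, h⟩).1) ((eT M).symm (finProdFinEquiv.symm ⟨i, h⟩).2)
  else 0

/-- table of constants -/
noncomputable def FG (b : Bool) (i : ℕ) : ℕ :=
  if h : i < nS M * nT M then
    gm M ((eS M).symm (finProdFinEquiv.symm ⟨i, h⟩).1) ((eT M).symm (finProdFinEquiv.symm ⟨i, h⟩).2) b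
  else 0

/-- digits from a pair -/
def dp (p : Fin M.B × Fin M.B) : Dg M := fun b => if b then p.1 else p.2

/-- table of constants -/
noncomputable def FN (i : ℕ) : ℕ :=
  if h : i < (nS M * nT M) * (M.B * M.B) then
    eS M (nst M ((eS M).symm (finProdFinEquiv.symm (finProdFinEquiv.symm ⟨i, h⟩).1).1)
      ((eT M).symm (finProdFinEquiv.symm (finProdFinEquiv.symm ⟨i, h⟩).1).2)
      (dp M (finProdFinEquiv.symm (finProdFinEquiv.symm ⟨i, h⟩).2)))
  else 0

/-- table of constants -/
noncomputable def FT (i : ℕ) : ℕ :=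
  if h : i < (nS M * nT M) * (M.B * M.B) then
    eT M (ntg M q0 ((eS M).symm (finProdFinEquiv.symm (finProdFinEquiv.symm ⟨i, h⟩).1).1)
      ((eT M).symm (finProdFinEquiv.symm (finProdFinEquiv.symm ⟨i, h⟩).1).2)
      (dp M (finProdFinEquiv.symm (finProdFinEquiv.symm ⟨i, h⟩).2)))
  else 0

theorem FA_eq (b : Bool) (q : Fin (nS M)) (t : Fin (nT M)) :
    FA M b (t + nT M * q) = am M ((eS M).symm q) ((eT M).symm t) b := by
  have h : (t : ℕ) + nT M * q = (finProdFinEquiv (q, t) : Fin (nS M * nT M)) := rfl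
  unfold FA
  rw [dif_pos (by rw [h]; exact Fin.is_lt _)]
  have h2 : (⟨(t : ℕ) + nT M * q, by rw [h]; exact Fin.is_lt _⟩ : Fin (nS M * nT M)) =
    finProdFinEquiv (q, t) := rfl
  rw [h2, Equiv.symm_apply_apply]

theorem FE_eq (q : Fin (nS M)) (t : Fin (nT M)) :
    FE M (t + nT M * q) = em M ((eS M).symm q) ((eT M).symm t) := by
  have h : (t : ℕ) + nT M * q = (finProdFinEquiv (q, t) : Fin (nS M * nT M)) := rfl
  unfold FE
  rw [dif_pos (by rw [h]; exact Fin.is_lt _)]
  have h2 : (⟨(t : ℕ) + nT M * q, by rw [h]; exact Fin.is_lt _⟩ : Fin (nS M * nT M)) =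
    finProdFinEquiv (q, t) := rfl
  rw [h2, Equiv.symm_apply_apply]

theorem FG_eq (b : Bool) (q : Fin (nS M)) (t : Fin (nT M)) :
    FG M b (t + nT M * q) = gm M ((eS M).symm q) ((eT M).symm t) b := by
  have h : (t : ℕ) + nT M * q = (finProdFinEquiv (q, t) : Fin (nS M * nT M)) := rfl
  unfold FG
  rw [dif_pos (by rw [h]; exact Fin.is_lt _)]
  have h2 : (⟨(t : ℕ) + nT M * q, by rw [h]; exact Fin.is_lt _⟩ : Fin (nS M * nT M)) =
    finProdFinEquiv (q, t) := rfl
  rw [h2, Equiv.symm_apply_apply]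

theorem FN_eq (q : Fin (nS M)) (t : Fin (nT M)) (d : Dg M) :
    FN M (((d false : ℕ) + M.B * d true) + (M.B * M.B) * (t + nT M * q)) =
      eS M (nst M ((eS M).symm q) ((eT M).symm t) d) := by
  have h : ((d false : ℕ) + M.B * d true) + (M.B * M.B) * (t + nT M * q) =
    (finProdFinEquiv (finProdFinEquiv (q, t), finProdFinEquiv (d true, d false)) :
      Fin ((nS M * nT M) * (M.B * M.B))) := rfl
  unfold FN
  rw [dif_pos (by rw [h]; exact Fin.is_lt _)]
  have h2 : (⟨((d false : ℕ) + M.B * d true) + (M.B * M.B) * (t + nT M * q),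
    by rw [h]; exact Fin.is_lt _⟩ : Fin ((nS M * nT M) * (M.B * M.B))) =
    finProdFinEquiv (finProdFinEquiv (q, t), finProdFinEquiv (d true, d false)) := rfl
  have h3 : dp M (d true, d false) = d := by
    funext b
    cases b <;> rfl
  rw [h2, Equiv.symm_apply_apply]
  simp only [Equiv.symm_apply_apply, h3]

theorem FT_eq (q : Fin (nS M)) (t : Fin (nT M)) (d : Dg M) :
    FT M q0 (((d false : ℕ) + M.B * d true) + (M.B * M.B) * (t + nT M * q)) =
      eT M (ntg M q0 ((eS M).symm q) ((eT M).symm t) d) := by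
  have h : ((d false : ℕ) + M.B * d true) + (M.B * M.B) * (t + nT M * q) =
    (finProdFinEquiv (finProdFinEquiv (q, t), finProdFinEquiv (d true, d false)) :
      Fin ((nS M * nT M) * (M.B * M.B))) := rfl
  unfold FT
  rw [dif_pos (by rw [h]; exact Fin.is_lt _)]
  have h2 : (⟨((d false : ℕ) + M.B * d true) + (M.B * M.B) * (t + nT M * q),
    by rw [h]; exact Fin.is_lt _⟩ : Fin ((nS M * nT M) * (M.B * M.B))) =
    finProdFinEquiv (finProdFinEquiv (q, t), finProdFinEquiv (d true, d false)) := rfl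
  have h3 : dp M (d true, d false) = d := by
    funext b
    cases b <;> rfl
  rw [h2, Equiv.symm_apply_apply]
  simp only [Equiv.symm_apply_apply, h3]

/-- the index of a state and a kind -/
noncomputable def ix (q x : ℕ) : ℕ := x / (KK M N * KK M N) + nT M * q

/-- the computed numbers -/
noncomputable def nv (b : Bool) (q x : ℕ) : ℕ :=
  FA M b (ix M N q x) + FE M (ix M N q x) * (if b then x % (KK M N * KK M N) / KK M N
    else x % (KK M N * KK M N) % KK M N) + FG M b (ix M N q x) * N

/-- the index of a state, a kind and digits -/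
noncomputable def iy (q x : ℕ) : ℕ :=
  (nv M N false q x % M.B + M.B * (nv M N true q x % M.B)) + (M.B * M.B) * ix M N q x

/-- next state -/
noncomputable def tD (q x : ℕ) : ℕ := FN M (iy M N q x)

/-- output -/
noncomputable def tO (q x : ℕ) : ℕ :=
  (nv M N false q x / M.B % KK M N + KK M N * (nv M N true q x / M.B % KK M N)) +
    (KK M N * KK M N) * FT M q0 (iy M N q x)

/-- the automaton with numbered states and letters -/
noncomputable def autN : Mealy (Fin (nS M)) (Fin (nL M N)) := (aut M q0 N).map (eS M) (eL M N)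

theorem entry (q : Fin (nS M)) (x : Fin (nL M N)) :
    (((autN M q0 N).δ q x : ℕ), ((autN M q0 N).out q x : ℕ)) = (tD M N q x, tO M q0 N q x) := by
  obtain ⟨σ, hσ⟩ : ∃ σ, σ = (eS M).symm q := ⟨_, rfl⟩
  obtain ⟨ℓ, hℓ⟩ : ∃ ℓ, ℓ = (eL M N).symm x := ⟨_, rfl⟩
  obtain ⟨t, ht⟩ : ∃ t : Fin (nT M), t = (finProdFinEquiv.symm x).1 := ⟨_, rfl⟩
  obtain ⟨y, hy⟩ : ∃ y : Fin (KK M N * KK M N), y = (finProdFinEquiv.symm x).2 := ⟨_, rfl⟩
  have hℓ' : ℓ = ((eT M).symm t, finProdFinEquiv.symm y) := by
    rw [hℓ, ht, hy]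
    rfl
  have htv : (t : ℕ) = x / (KK M N * KK M N) := by rw [ht]; rfl
  have hyv : (y : ℕ) = x % (KK M N * KK M N) := by rw [hy]; rfl
  have hix : ix M N q x = t + nT M * q := by rw [ix, htv]
  have hnv : ∀ b, nv M N b q x = vv M N σ ℓ b := by
    intro b
    rw [hℓ', hσ]
    unfold nv vv
    rw [hix, FA_eq, FE_eq, FG_eq, ← hyv]
    cases b <;> rfl
  have hdv : ∀ b, (dv M (vv M N σ ℓ) b : ℕ) = nv M N b q x % M.B := by
    intro b
    rw [hnv]
    rfl
  have hiy : iy M N q x = (((dv M (vv M N σ ℓ) false : ℕ) + M.B * dv M (vv M N σ ℓ) true) +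
      (M.B * M.B) * (t + nT M * q)) := by
    rw [iy, hdv, hdv, hix]
  have e1 : ((autN M q0 N).δ q x : ℕ) = eS M (nst M σ ℓ.1 (dv M (vv M N σ ℓ))) := by
    rw [hσ, hℓ]
    rfl
  have e2 : ((autN M q0 N).out q x : ℕ) =
      (vv M N σ ℓ false / M.B % KK M N + KK M N * (vv M N σ ℓ true / M.B % KK M N)) +
        (KK M N * KK M N) * (eT M (ntg M q0 σ ℓ.1 (dv M (vv M N σ ℓ)))) := by
    rw [hσ, hℓ]
    rfl
  have e3 : ℓ.1 = (eT M).symm t := by rw [hℓ']
  rw [e1, e2, tD, tO, hiy, FN_eq, FT_eq, hnv, hnv, e3, hσ]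

theorem table_eq : (autN M q0 N).table =
    (List.range (nS M)).map fun q => (List.range (nL M N)).map fun x =>
      (tD M N q x, tO M q0 N q x) := by
  unfold Mealy.table
  refine finRange_map _ _ fun q => ?_
  exact finRange_map _ _ fun x => entry M q0 N q x

/-! ### primitive recursion -/

theorem p_FA (b : Bool) : Primrec (FA M b) :=
  primrec_bounded (nS M * nT M) _ fun i hi => dif_neg (by omega)

theorem p_FE : Primrec (FE M) :=
  primrec_bounded (nS M * nT M) _ fun i hi => dif_neg (by omega)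

theorem p_FG (b : Bool) : Primrec (FG M b) :=
  primrec_bounded (nS M * nT M) _ fun i hi => dif_neg (by omega)

theorem p_FN : Primrec (FN M) :=
  primrec_bounded ((nS M * nT M) * (M.B * M.B)) _ fun i hi => dif_neg (by omega)

theorem p_FT : Primrec (FT M q0) :=
  primrec_bounded ((nS M * nT M) * (M.B * M.B)) _ fun i hi => dif_neg (by omega)

section

variable {α : Type} [Primcodable α]

theorem p_KK {f : α → ℕ} (hf : Primrec f) : Primrec fun a => KK M (f a) :=
  Primrec.nat_add.comp (Primrec.nat_add.comp (Primrec.const _) hf) (Primrec.const 1)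

theorem p_KK2 {f : α → ℕ} (hf : Primrec f) : Primrec fun a => KK M (f a) * KK M (f a) :=
  Primrec.nat_mul.comp (p_KK M hf) (p_KK M hf)

theorem p_ix {f g h : α → ℕ} (hf : Primrec f) (hg : Primrec g) (hh : Primrec h) :
    Primrec fun a => ix M (f a) (g a) (h a) :=
  Primrec.nat_add.comp (Primrec.nat_div.comp hh (p_KK2 M hf))
    (Primrec.nat_mul.comp (Primrec.const _) hg)

theorem p_nv (b : Bool) {f g h : α → ℕ} (hf : Primrec f) (hg : Primrec g) (hh : Primrec h) :
    Primrec fun a => nv M (f a) b (g a) (h a) := by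
  have hi := p_ix M hf hg hh
  have hm := Primrec.nat_mod.comp hh (p_KK2 M hf)
  have hc : Primrec fun a => (if b then h a % (KK M (f a) * KK M (f a)) / KK M (f a)
      else h a % (KK M (f a) * KK M (f a)) % KK M (f a)) := by
    cases b
    · exact Primrec.nat_mod.comp hm (p_KK M hf)
    · exact Primrec.nat_div.comp hm (p_KK M hf)
  exact Primrec.nat_add.comp (Primrec.nat_add.comp ((p_FA M b).comp hi)
    (Primrec.nat_mul.comp ((p_FE M).comp hi) hc)) (Primrec.nat_mul.comp ((p_FG M b).comp hi) hf)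

theorem p_iy {f g h : α → ℕ} (hf : Primrec f) (hg : Primrec g) (hh : Primrec h) :
    Primrec fun a => iy M (f a) (g a) (h a) :=
  Primrec.nat_add.comp (Primrec.nat_add.comp
    (Primrec.nat_mod.comp (p_nv M false hf hg hh) (Primrec.const _))
    (Primrec.nat_mul.comp (Primrec.const _)
      (Primrec.nat_mod.comp (p_nv M true hf hg hh) (Primrec.const _))))
    (Primrec.nat_mul.comp (Primrec.const _) (p_ix M hf hg hh))

theorem p_tD {f g h : α → ℕ} (hf : Primrec f) (hg : Primrec g) (hh : Primrec h) :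
    Primrec fun a => tD M (f a) (g a) (h a) := (p_FN M).comp (p_iy M hf hg hh)

theorem p_tO {f g h : α → ℕ} (hf : Primrec f) (hg : Primrec g) (hh : Primrec h) :
    Primrec fun a => tO M q0 (f a) (g a) (h a) :=
  Primrec.nat_add.comp (Primrec.nat_add.comp
    (Primrec.nat_mod.comp (Primrec.nat_div.comp (p_nv M false hf hg hh) (Primrec.const _))
      (p_KK M hf))
    (Primrec.nat_mul.comp (p_KK M hf)
      (Primrec.nat_mod.comp (Primrec.nat_div.comp (p_nv M true hf hg hh) (Primrec.const _))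
        (p_KK M hf))))
    (Primrec.nat_mul.comp (p_KK2 M hf) ((p_FT M q0).comp (p_iy M hf hg hh)))

end

theorem p_table : Primrec fun N => (autN M q0 N).table := by
  have h : Primrec fun N : ℕ => (List.range (nS M)).map fun q => (List.range (nL M N)).map fun x =>
      (tD M N q x, tO M q0 N q x) := by
    refine Primrec.list_map (Primrec.const _) ?_
    refine Primrec.list_map (f := fun p : ℕ × ℕ => List.range (nL M p.1))
      (g := fun (p : ℕ × ℕ) (x : ℕ) => (tD M p.1 p.2 x, tO M q0 p.1 p.2 x)) ?_ ?_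
    · exact Primrec.list_range.comp (Primrec.nat_mul.comp (Primrec.const _)
        (p_KK2 M Primrec.fst))
    · have h1 : Primrec fun p : (ℕ × ℕ) × ℕ => p.1.1 := Primrec.fst.comp Primrec.fst
      have h2 : Primrec fun p : (ℕ × ℕ) × ℕ => p.1.2 := Primrec.snd.comp Primrec.fst
      have h3 : Primrec fun p : (ℕ × ℕ) × ℕ => p.2 := Primrec.snd
      exact (Primrec.pair (p_tD M h1 h2 h3) (p_tO M q0 h1 h2 h3)).to₂
  exact h.of_eq fun N => (table_eq M q0 N).symm

end

/-- There is a number `n` such that it is undecidable whether an automaton with `n` states is weakly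
reset. -/
theorem undecidable : ∃ n : ℕ, ¬ ∃ f : List (List (ℕ × ℕ)) → Bool, Computable f ∧
    ∀ (k : ℕ) (M : Mealy (Fin n) (Fin k)), f M.table = true ↔ M.WeaklyReset := by
  obtain ⟨Q, hQ, M, q0, N, -, hN, hnc⟩ := Pool.Agent.Helper948.Erode.exists_sys
  refine ⟨nS M, ?_⟩
  rintro ⟨f, hf, hcor⟩
  apply hnc
  have hc : Computable fun n => f (autN M q0 (N n)).table :=
    hf.comp ((p_table M q0).to_comp.comp hN)
  refine ComputablePred.computable_iff.2 ⟨_, hc, ?_⟩
  funext n
  rw [eq_iff_iff, hcor, ← weaklyReset_iff M q0 (N n)]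
  exact (Mealy.weaklyReset_map_iff _ _ _).symm

end Pool.Agent.V11231.WR
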