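import Pool.Agent.V11231.WR.Inv

set_option autoImplicit false

/-!
# The automaton is weakly reset if and only if the machine stops
-/

namespace Pool.Agent.V11231.WR

open Pool.Agent.Helper948.Erode (Sys ini)

namespace Mealy

variable {Q A : Type} (M : Mealy Q A)

theorem length_word (u : List A) (w : ℕ → Q) (t : ℕ) : (M.word u w t).length = u.length := by
  induction u generalizing w with
  | nil => rfl
  | cons a u ih =>
    change (M.word u (M.cout a w) t).length + 1 = _
    rw [ih]
    rfl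

theorem col_all (P : A → Prop) (hP : ∀ q a, P a → P (M.out q a)) (a : A) (ha : P a) (w : ℕ → Q)
    (t : ℕ) : P (M.col a w t) := by
  induction t with
  | zero => exact ha
  | succ t ih => exact hP _ _ ih

theorem word_all (P : A → Prop) (hP : ∀ q a, P a → P (M.out q a)) (u : List A)
    (hu : ∀ x ∈ u, P x) (w : ℕ → Q) (t : ℕ) : ∀ x ∈ M.word u w t, P x := by
  induction u generalizing w with
  | nil => intro x hx; cases hx
  | cons a u ih =>
    intro x hx
    change x ∈ M.col a w t :: M.word u (M.cout a w) t at hx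
    rcases List.mem_cons.1 hx with rfl | hx
    · exact M.col_all P hP a (hu a List.mem_cons_self) w t
    · exact ih (fun x hx => hu x (List.mem_cons_of_mem _ hx)) _ x hx

end Mealy

section

variable {Q : Type} (M : Sys Q Bool) (q0 : Q) (N : ℕ)

theorem tr_sink (u : List (Lt M N)) :
    ∀ x ∈ (aut M q0 N).tr .sink u, x = s0 M N ∨ x = h0 M N := by
  induction u with
  | nil => intro x hx; cases hx
  | cons a u ih =>
    intro x hx
    change x ∈ (aut M q0 N).out .sink a :: (aut M q0 N).tr ((aut M q0 N).δ .sink a) u at hx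
    rw [δ_sink] at hx
    rcases List.mem_cons.1 hx with rfl | hx
    · exact out_sink M q0 N a
    · exact ih x hx

theorem tr_sink_ne (u : List (Lt M N)) (hu : ∀ x ∈ u, x.1 ≠ .hash) :
    (aut M q0 N).tr .sink u = List.replicate u.length (s0 M N) := by
  induction u with
  | nil => rfl
  | cons a u ih =>
    change (aut M q0 N).out .sink a :: (aut M q0 N).tr ((aut M q0 N).δ .sink a) u = _
    rw [δ_sink, ih fun x hx => hu x (List.mem_cons_of_mem _ hx),
      out_sink_of_ne M q0 N a (hu a List.mem_cons_self)]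
    rfl

theorem col_h0 (w : ℕ → St M) (t : ℕ) : (aut M q0 N).col (h0 M N) w t = h0 M N := by
  induction t with
  | zero => rfl
  | succ t ih =>
    change (aut M q0 N).out (w t) ((aut M q0 N).col (h0 M N) w t) = _
    rw [ih]
    exact out_hash M q0 N _ _

theorem reach (hN : ∀ k, (cfg M q0 N k).1 ≠ none) (u : List (Lt M N))
    (hu : ∀ x ∈ u, x = s0 M N ∨ x = h0 M N) : ∀ (a t0 : ℕ) (w : ℕ → St M),
    (∀ t < t0, w t = .sink) → (∀ t, w (t0 + t) = W M q0 N a t) →
      ∃ T, ∀ t, T ≤ t → (aut M q0 N).outs u w t ≠ .sink := by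
  induction u with
  | nil =>
    intro a t0 w h1 h2
    refine ⟨t0 + a, fun t ht => ?_⟩
    obtain ⟨t', rfl⟩ : ∃ t', t = t0 + t' := ⟨t - t0, by omega⟩
    change w (t0 + t') ≠ .sink
    rw [h2]
    exact (W_ne M q0 N a (hN a)).2 t' (by omega)
  | cons x u ih =>
    intro a t0 w h1 h2
    have ih' := ih fun x hx => hu x (List.mem_cons_of_mem _ hx)
    rcases hu x List.mem_cons_self with rfl | rfl
    · obtain ⟨c1, c2⟩ := (aut M q0 N).col_shift (s0 M N) w t0 fun t ht => by
        rw [h1 t ht]
        exact out_sink_of_ne M q0 N _ (by simp [s0])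
      refine ih' (a + 1) t0 _ ?_ ?_
      · intro t ht
        change (aut M q0 N).δ (w t) ((aut M q0 N).col (s0 M N) w t) = _
        rw [h1 t ht]
        exact δ_sink M q0 N _
      · intro t
        change (aut M q0 N).δ (w (t0 + t)) ((aut M q0 N).col (s0 M N) w (t0 + t)) = _
        rw [c2, W_succ, h2]
        have : (fun t => w (t0 + t)) = W M q0 N a := funext h2
        rw [this]
        rfl
    · refine ih' 0 (t0 + a) _ ?_ ?_
      · intro t ht
        change (aut M q0 N).δ (w t) ((aut M q0 N).col (h0 M N) w t) = _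
        have hw : w t = .sink := by
          rcases Nat.lt_or_ge t t0 with h | h
          · exact h1 t h
          · obtain ⟨t', rfl⟩ : ∃ t', t = t0 + t' := ⟨t - t0, by omega⟩
            rw [h2]
            exact (W_ne M q0 N a (hN a)).1 t' (by omega)
        rw [hw]
        exact δ_sink M q0 N _
      · intro t
        change (aut M q0 N).δ (w (t0 + a + t)) ((aut M q0 N).col (h0 M N) w (t0 + a + t)) = _
        rw [col_h0]
        refine δ_hash M q0 N _ _ ?_
        rw [Nat.add_assoc, h2]
        exact (W_ne M q0 N a (hN a)).2 _ (Nat.le_add_right _ _)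

theorem not_weaklyReset (hN : ∀ k, (cfg M q0 N k).1 ≠ none) : ¬ (aut M q0 N).WeaklyReset := by
  rintro ⟨-, H, ⟨x, hx⟩, h1, -, h3⟩
  have hu := h3 .sink x hx
  have hw : ∀ t, (aut M q0 N).word ((aut M q0 N).tr .sink x) (fun _ => .p) t ∈ H := by
    intro t
    induction t with
    | zero =>
      rw [Mealy.word_zero]
      exact hu
    | succ t ih =>
      rw [Mealy.word_succ]
      exact h3 _ _ ih
  obtain ⟨T, hT⟩ := reach M q0 N hN _ (tr_sink M q0 N x) 0 0 (fun _ => .p)
    (fun t ht => by omega) (fun t => rfl)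
  obtain ⟨r, hr, -⟩ := ((aut M q0 N).mem_syn).1 (h1 (hw T))
  have e1 := hr .sink
  rw [run_sink] at e1
  have e2 := hr .p
  have e3 := (aut M q0 N).run_word ((aut M q0 N).tr .sink x) (fun _ => .p) T
  rw [e2, ← e1] at e3
  exact hT T le_rfl e3.symm

theorem weaklyReset (j : ℕ) (h : (cfg M q0 N j).1 ≠ none)
    (h' : (cfg M q0 N (j + 1)).1 = none) : (aut M q0 N).WeaklyReset := by
  let v : ℕ → List (Lt M N) := fun t =>
    (aut M q0 N).word (List.replicate (j + 1) (s0 M N)) (fun _ => .p) t
  have hv0 : v 0 = List.replicate (j + 1) (s0 M N) := Mealy.word_zero _ _ _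
  have hvs : ∀ t, v (t + 1) = (aut M q0 N).tr .p (v t) := fun t => Mealy.word_succ _ _ _ _
  have hlen : ∀ t, (v t).length = j + 1 := fun t => by
    rw [Mealy.length_word, List.length_replicate]
  have hne : ∀ t, ∀ x ∈ v t, x.1 ≠ .hash := fun t => by
    refine Mealy.word_all _ (fun x => x.1 ≠ .hash) (fun q a ha => out_ne_hash M q0 N q a ha) _ ?_ _ t
    intro x hx
    rw [List.eq_of_mem_replicate hx]
    simp [s0]
  have hvsink : ∀ t, (aut M q0 N).tr .sink (v t) = v 0 := fun t => by
    rw [tr_sink_ne M q0 N _ (hne t), hlen, hv0]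
  have hrun : ∀ t, (aut M q0 N).run .p (v t) = .sink := fun t => by
    have e := (aut M q0 N).run_word (List.replicate (j + 1) (s0 M N)) (fun _ => .p) t
    rw [e]
    exact W_halt M q0 N j h h' t
  have hδ : ∀ σ : St M, (aut M q0 N).δ σ (h0 M N) = .sink ∨ (aut M q0 N).δ σ (h0 M N) = .p := by
    intro σ
    by_cases hσ : σ = .sink
    · rw [hσ]
      exact Or.inl (δ_sink M q0 N _)
    · exact Or.inr (δ_hash M q0 N σ _ hσ)
  let H : Set (List (Lt M N)) := {w | ∃ (x : List (Lt M N)) (t : ℕ) (y : List (Lt M N)),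
    w = x ++ (h0 M N :: (v t ++ y))}
  have hHs : H ⊆ (aut M q0 N).Syn := by
    rintro _ ⟨x, t, y, rfl⟩
    refine ((aut M q0 N).mem_syn).2 ⟨.sink, fun q => ?_, ⟨.sink⟩⟩
    rw [Mealy.run_append]
    change (aut M q0 N).run ((aut M q0 N).δ _ (h0 M N)) (v t ++ y) = _
    rw [Mealy.run_append]
    rcases hδ ((aut M q0 N).run q x) with e | e
    · rw [e, run_sink, run_sink]
    · rw [e, hrun, run_sink]
  have hne' : H.Nonempty := ⟨_, [], 0, [], rfl⟩
  refine ⟨hne'.mono hHs, H, hne', hHs, ?_, ?_⟩
  · rintro _ ⟨x, t, y, rfl⟩ a b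
    exact ⟨a ++ x, t, y ++ b, by simp [List.append_assoc]⟩
  · rintro q _ ⟨x, t, y, rfl⟩
    rw [Mealy.tr_append]
    have e1 : (aut M q0 N).tr ((aut M q0 N).run q x) (h0 M N :: (v t ++ y)) =
        h0 M N :: (aut M q0 N).tr ((aut M q0 N).δ ((aut M q0 N).run q x) (h0 M N)) (v t ++ y) := by
      change (aut M q0 N).out _ (h0 M N) :: _ = _
      rw [show (aut M q0 N).out ((aut M q0 N).run q x) (h0 M N) = h0 M N from
        out_hash M q0 N _ _]
    rw [e1, Mealy.tr_append]
    rcases hδ ((aut M q0 N).run q x) with e | e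
    · rw [e, hvsink]
      exact ⟨_, 0, _, rfl⟩
    · rw [e, ← hvs]
      exact ⟨_, t + 1, _, rfl⟩

theorem weaklyReset_iff : (aut M q0 N).WeaklyReset ↔ M.Halts (some q0) (ini N) := by
  rw [halts_iff]
  constructor
  · intro h
    by_contra hN
    push Not at hN
    exact not_weaklyReset M q0 N hN h
  · intro h
    classical
    obtain ⟨k, hk, hmin⟩ : ∃ k, (cfg M q0 N k).1 = none ∧ ∀ j < k, (cfg M q0 N j).1 ≠ none :=
      ⟨Nat.find h, Nat.find_spec h, fun j hj => Nat.find_min h hj⟩
    cases k with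
    | zero => simp [cfg] at hk
    | succ j => exact weaklyReset M q0 N j (hmin j (Nat.lt_succ_self j)) hk

end

end Pool.Agent.V11231.WR
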