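import Pool.Agent.V11231.WR.Auto

set_option autoImplicit false

/-!
# The computation of the automaton of a counter machine
-/

namespace Pool.Agent.V11231.WR

open Pool.Agent.Helper948.Erode (Sys ini)

section

variable {Q : Type} (M : Sys Q Bool) (q0 : Q) (N : ℕ)

/-- the digits number `k` -/
def dg (m : Bool → ℕ) (k : ℕ) : Dg M := fun b => ⟨m b / M.B ^ k % M.B, Nat.mod_lt _ M.hB⟩

/-- the carries -/
def car (i : Ins M) (m : Bool → ℕ) (k : ℕ) (b : Bool) : ℕ :=
  (mul M i b * (m b % M.B ^ k) + con M N i b) / M.B ^ k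

/-- the new numbers -/
def nm (i : Ins M) (m : Bool → ℕ) (b : Bool) : ℕ := mul M i b * m b + con M N i b

/-- a pair of carries -/
def cp (f : Bool → ℕ) : Fin (KK M N) × Fin (KK M N) :=
  (Fin.ofNat (KK M N) (f true), Fin.ofNat (KK M N) (f false))

theorem cc_cp (f : Bool → ℕ) (hf : ∀ b, f b < KK M N) (b : Bool) : cc M N (cp M N f) b = f b := by
  cases b
  · change (if false = true then _ else f false % (KK M N)) = _
    rw [if_neg (by simp), Nat.mod_eq_of_lt (hf _)]
  · change (if true = true then f true % (KK M N) else _) = _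
    rw [if_pos rfl, Nat.mod_eq_of_lt (hf _)]

theorem out_eq (σ : St M) (x : Lt M N) : (aut M q0 N).out σ x =
    (ntg M q0 σ x.1 (dv M (vv M N σ x)), cp M N fun b => vv M N σ x b / M.B) := rfl

theorem δ_eq (σ : St M) (x : Lt M N) : (aut M q0 N).δ σ x =
    nst M σ x.1 (dv M (vv M N σ x)) := rfl

theorem nm_div (i : Ins M) (m : Bool → ℕ) (k : ℕ) (b : Bool) :
    nm M N i m b / M.B ^ k = mul M i b * (m b / M.B ^ k) + car M N i m k b := by
  have hB : 0 < M.B ^ k := pow_pos M.hB k
  unfold nm car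
  conv_lhs => rw [← Nat.mod_add_div (m b) (M.B ^ k)]
  rw [show mul M i b * (m b % M.B ^ k + M.B ^ k * (m b / M.B ^ k)) + con M N i b =
    (mul M i b * (m b % M.B ^ k) + con M N i b) + M.B ^ k * (mul M i b * (m b / M.B ^ k)) by ring,
    Nat.add_mul_div_left _ _ hB]
  ring

theorem nm_div' (i : Ins M) (m : Bool → ℕ) (k : ℕ) (b : Bool) :
    nm M N i m b / M.B ^ k = (mul M i b * (dg M m k b : ℕ) + car M N i m k b) +
      M.B * (mul M i b * (m b / M.B ^ (k + 1))) := by
  rw [nm_div]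
  have h : m b / M.B ^ k = (dg M m k b : ℕ) + M.B * (m b / M.B ^ (k + 1)) := by
    rw [pow_succ, ← Nat.div_div_eq_div_mul]
    exact (Nat.mod_add_div _ _).symm
  conv_lhs => rw [h]
  ring

theorem dig_step (i : Ins M) (m : Bool → ℕ) (k : ℕ) (b : Bool) :
    (mul M i b * (dg M m k b : ℕ) + car M N i m k b) % M.B = nm M N i m b / M.B ^ k % M.B := by
  rw [nm_div', Nat.add_mul_mod_self_left]

theorem car_step (i : Ins M) (m : Bool → ℕ) (k : ℕ) (b : Bool) :
    (mul M i b * (dg M m k b : ℕ) + car M N i m k b) / M.B = car M N i m (k + 1) b := by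
  have h1 := nm_div M N i m (k + 1) b
  have h2 := nm_div' M N i m k b
  have h3 : nm M N i m b / M.B ^ (k + 1) = nm M N i m b / M.B ^ k / M.B := by
    rw [Nat.div_div_eq_div_mul, pow_succ]
  rw [h3, h2, Nat.add_mul_div_left _ _ M.hB] at h1
  omega

theorem car_zero (i : Ins M) (m : Bool → ℕ) (b : Bool) : car M N i m 0 b = con M N i b := by
  simp [car, Nat.mod_one]

theorem car_lt (i : Ins M) (m : Bool → ℕ) (k : ℕ) (b : Bool) : car M N i m k b < KK M N := by
  have hB : 0 < M.B ^ k := pow_pos M.hB k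
  have h1 : mul M i b ≤ M.l := by
    cases i with
    | none => exact Nat.zero_le _
    | some i => exact M.ha _ _ _
  have h2 : con M N i b ≤ M.l + N := by
    cases i with
    | none =>
      change ini N b ≤ _
      unfold ini
      split <;> omega
    | some i => exact (M.hb _ _ _).trans (Nat.le_add_right _ _)
  have h3 : m b % M.B ^ k + 1 ≤ M.B ^ k := Nat.mod_lt _ hB
  unfold car
  refine Nat.lt_succ_of_le (Nat.div_le_of_le_mul ?_)
  calc mul M i b * (m b % M.B ^ k) + con M N i b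
      ≤ M.l * (m b % M.B ^ k) + (M.l + N) := Nat.add_le_add (Nat.mul_le_mul_right _ h1) h2
    _ ≤ M.l * (m b % M.B ^ k) + M.l + N * M.B ^ k := by
        have : N * 1 ≤ N * M.B ^ k := Nat.mul_le_mul_left _ hB
        omega
    _ = M.l * (m b % M.B ^ k + 1) + N * M.B ^ k := by ring
    _ ≤ M.l * M.B ^ k + N * M.B ^ k := Nat.add_le_add_right (Nat.mul_le_mul_left _ h3) _
    _ = M.B ^ k * (M.l + N) := by ring

theorem dv_step (i : Ins M) (m : Bool → ℕ) (k : ℕ) :
    dv M (fun b => mul M i b * (dg M m k b : ℕ) + car M N i m k b) = dg M (nm M N i m) k := by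
  funext b
  exact Fin.ext (dig_step M N i m k b)

/-- the state brings the instruction and the digits `d` -/
def GS (σ : St M) (i : Ins M) (d : Dg M) : Prop :=
  (σ = .p ∧ i = none ∧ ∀ b, (d b : ℕ) = 0) ∨ ∃ i', i = some i' ∧ σ = .G i' d

/-- the state brings the digits `d` -/
def ES (σ : St M) (d : Dg M) : Prop := (σ = .p ∧ ∀ b, (d b : ℕ) = 0) ∨ σ = .E d

theorem vv_G {σ : St M} {i : Ins M} {m : Bool → ℕ} (h : GS M σ i (dg M m 0))
    (c : Fin (KK M N) × Fin (KK M N)) :
    vv M N σ (.s, c) = fun b => mul M i b * (dg M m 0 b : ℕ) + car M N i m 0 b := by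
  funext b
  rw [car_zero]
  rcases h with ⟨rfl, rfl, hd⟩ | ⟨i', rfl, rfl⟩
  · rw [hd b]
    cases b <;> simp [vv, am, em, gm, con, ini]
  · simp [vv, am, em, gm, con, mul]

theorem vv_F {σ : St M} {i : Ins M} {m : Bool → ℕ} {k : ℕ} (h : ES M σ (dg M m k)) (q : Q)
    (d' : Dg M) : vv M N σ (.F q d' i, cp M N (car M N i m k)) =
      fun b => mul M i b * (dg M m k b : ℕ) + car M N i m k b := by
  funext b
  have h1 := cc_cp M N (car M N i m k) (car_lt M N i m k) b
  rcases h with ⟨rfl, hd⟩ | rfl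
  · rw [hd b]
    simp [vv, am, em, gm, h1]
  · simp [vv, am, em, gm, h1]

theorem vv_R {σ : St M} {i : Ins M} {m : Bool → ℕ} {k : ℕ} (h : ES M σ (dg M m k)) :
    vv M N σ (.R i, cp M N (car M N i m k)) =
      fun b => mul M i b * (dg M m k b : ℕ) + car M N i m k b := by
  funext b
  have h1 := cc_cp M N (car M N i m k) (car_lt M N i m k) b
  rcases h with ⟨rfl, hd⟩ | rfl
  · rw [hd b]
    simp [vv, am, em, gm, h1]
  · simp [vv, am, em, gm, h1]

/-- the new carries -/
theorem cp_step (i : Ins M) (m : Bool → ℕ) (k : ℕ) :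
    (cp M N fun b => (mul M i b * (dg M m k b : ℕ) + car M N i m k b) / M.B) =
      cp M N (car M N i m (k + 1)) := by
  congr 1
  funext b
  exact car_step M N i m k b

theorem out_G {σ : St M} {i : Ins M} {m : Bool → ℕ} {q : Q} (h : GS M σ i (dg M m 0))
    (hq : nx M q0 i = some q) (c : Fin (KK M N) × Fin (KK M N)) :
    (aut M q0 N).out σ (.s, c) = (.F q (dg M (nm M N i m) 0) i, cp M N (car M N i m 1)) := by
  rw [out_eq, vv_G M N h, dv_step, cp_step]
  congr 1
  rcases h with ⟨rfl, rfl, hd⟩ | ⟨i', rfl, rfl⟩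
  · have : q0 = q := by simpa [nx] using hq
    subst this
    rfl
  · have : M.nxt i'.1 i'.2 = some q := hq
    simp only [ntg, this]

theorem δ_G {σ : St M} {i : Ins M} {d : Dg M} (h : GS M σ i d)
    (c : Fin (KK M N) × Fin (KK M N)) : (aut M q0 N).δ σ (.s, c) = .sink := by
  rcases h with ⟨rfl, rfl, hd⟩ | ⟨i', rfl, rfl⟩ <;> rfl

theorem out_F {σ : St M} {i : Ins M} {m : Bool → ℕ} {q : Q} {d : Dg M}
    (h : ES M σ (dg M m 1)) {q' : Q} (hq : M.nxt q d = some q') :
    (aut M q0 N).out σ (.F q d i, cp M N (car M N i m 1)) = (.R i, cp M N (car M N i m 2)) ∧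
    (aut M q0 N).δ σ (.F q d i, cp M N (car M N i m 1)) = .G (q, d) (dg M (nm M N i m) 1) := by
  rw [out_eq, δ_eq, vv_F M N h, dv_step, cp_step]
  rcases h with ⟨rfl, hd⟩ | rfl <;> simp only [ntg, nst, hq, and_self]

theorem out_F_none {σ : St M} {i : Ins M} {d' : Dg M} {q : Q} {d : Dg M}
    (h : ES M σ d') (hq : M.nxt q d = none) (c : Fin (KK M N) × Fin (KK M N)) :
    ((aut M q0 N).out σ (.F q d i, c)).1 = .H ∧ (aut M q0 N).δ σ (.F q d i, c) = .sink := by
  rw [out_eq, δ_eq]
  rcases h with ⟨rfl, hd⟩ | rfl <;> simp only [ntg, nst, hq, and_self]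

theorem out_R {σ : St M} {i : Ins M} {m : Bool → ℕ} {k : ℕ} (h : ES M σ (dg M m k)) :
    (aut M q0 N).out σ (.R i, cp M N (car M N i m k)) = (.R i, cp M N (car M N i m (k + 1))) ∧
    (aut M q0 N).δ σ (.R i, cp M N (car M N i m k)) = .E (dg M (nm M N i m) k) := by
  rw [out_eq, δ_eq, vv_R M N h, dv_step, cp_step]
  rcases h with ⟨rfl, hd⟩ | rfl <;> simp only [ntg, nst, and_self]

theorem out_H {σ : St M} (hσ : σ ≠ .sink) (c : Fin (KK M N) × Fin (KK M N)) :
    ((aut M q0 N).out σ (.H, c)).1 = .H ∧ (aut M q0 N).δ σ (.H, c) = .sink := by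
  rw [out_eq, δ_eq]
  cases σ
  case sink => exact (hσ rfl).elim
  all_goals exact ⟨rfl, rfl⟩

theorem ES.ne {σ : St M} {d : Dg M} (h : ES M σ d) : σ ≠ .sink := by
  rcases h with ⟨rfl, hd⟩ | rfl <;> simp

theorem GS.ne {σ : St M} {i : Ins M} {d : Dg M} (h : GS M σ i d) : σ ≠ .sink := by
  rcases h with ⟨rfl, -, hd⟩ | ⟨i', -, rfl⟩ <;> simp

/-- the stream of states which drives the place number `j` -/
structure Src (w : ℕ → St M) (j : ℕ) (i : Ins M) (m : Bool → ℕ) : Prop where
  lt : ∀ t < j, w t = .sink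
  gl : GS M (w j) i (dg M m 0)
  el : ∀ k, ES M (w (j + 1 + k)) (dg M m (k + 1))

theorem Src.ne {w : ℕ → St M} {j : ℕ} {i : Ins M} {m : Bool → ℕ} (h : Src M w j i m) (t : ℕ)
    (ht : j ≤ t) : w t ≠ .sink := by
  rcases Nat.eq_or_lt_of_le ht with rfl | ht
  · exact h.gl.ne
  · obtain ⟨k, rfl⟩ : ∃ k, t = j + 1 + k := ⟨t - (j + 1), by omega⟩
    exact (h.el k).ne

section col

variable {M} {w : ℕ → St M} {j : ℕ} {i : Ins M} {m : Bool → ℕ} {q : Q}

theorem Src.col0 (h : Src M w j i m) (t : ℕ) (ht : t ≤ j) :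
    (aut M q0 N).col (s0 M N) w t = s0 M N :=
  ((aut M q0 N).col_shift (s0 M N) w j fun t ht => by
    rw [h.lt t ht]
    exact out_sink_of_ne M q0 N _ (by simp [s0])).1 t ht

theorem Src.col1 (h : Src M w j i m) (hq : nx M q0 i = some q) :
    (aut M q0 N).col (s0 M N) w (j + 1) =
      (.F q (dg M (nm M N i m) 0) i, cp M N (car M N i m 1)) := by
  change (aut M q0 N).out (w j) ((aut M q0 N).col (s0 M N) w j) = _
  rw [h.col0 q0 N j le_rfl]
  exact out_G M q0 N h.gl hq _

theorem Src.col2 (h : Src M w j i m) (hq : nx M q0 i = some q) {q' : Q}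
    (hq' : M.nxt q (dg M (nm M N i m) 0) = some q') (k : ℕ) :
    (aut M q0 N).col (s0 M N) w (j + 1 + (k + 1)) = (.R i, cp M N (car M N i m (k + 2))) := by
  induction k with
  | zero =>
    change (aut M q0 N).out (w (j + 1)) ((aut M q0 N).col (s0 M N) w (j + 1)) = _
    rw [h.col1 q0 N hq]
    exact (out_F M q0 N (h.el 0) hq').1
  | succ k ih =>
    change (aut M q0 N).out (w (j + 1 + (k + 1)))
      ((aut M q0 N).col (s0 M N) w (j + 1 + (k + 1))) = _
    rw [ih]
    exact (out_R M q0 N (h.el (k + 1))).1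

theorem Src.step (h : Src M w j i m) (hq : nx M q0 i = some q) {q' : Q}
    (hq' : M.nxt q (dg M (nm M N i m) 0) = some q') :
    Src M ((aut M q0 N).cout (s0 M N) w) (j + 1) (some (q, dg M (nm M N i m) 0))
      (fun b => nm M N i m b / M.B) := by
  have hd : ∀ k, dg M (fun b => nm M N i m b / M.B) k = dg M (nm M N i m) (k + 1) := by
    intro k
    funext b
    apply Fin.ext
    change nm M N i m b / M.B / M.B ^ k % M.B = nm M N i m b / M.B ^ (k + 1) % M.B
    rw [Nat.div_div_eq_div_mul, pow_succ']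
  refine ⟨?_, ?_, ?_⟩
  · intro t ht
    change (aut M q0 N).δ (w t) ((aut M q0 N).col (s0 M N) w t) = _
    rw [h.col0 q0 N t (by omega)]
    rcases Nat.eq_or_lt_of_le (Nat.le_of_lt_succ ht) with rfl | ht
    · exact δ_G M q0 N h.gl _
    · rw [h.lt t ht]
      exact δ_sink M q0 N _
  · rw [hd]
    refine Or.inr ⟨(q, dg M (nm M N i m) 0), rfl, ?_⟩
    change (aut M q0 N).δ (w (j + 1)) ((aut M q0 N).col (s0 M N) w (j + 1)) = _
    rw [h.col1 q0 N hq]
    exact (out_F M q0 N (h.el 0) hq').2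
  · intro k
    rw [hd]
    refine Or.inr ?_
    change (aut M q0 N).δ (w (j + 1 + 1 + k)) ((aut M q0 N).col (s0 M N) w (j + 1 + 1 + k)) = _
    rw [show j + 1 + 1 + k = j + 1 + (k + 1) by ring, h.col2 q0 N hq hq' k]
    exact (out_R M q0 N (h.el (k + 1))).2

theorem Src.halt (h : Src M w j i m) (hq : nx M q0 i = some q)
    (hq' : M.nxt q (dg M (nm M N i m) 0) = none) (t : ℕ) :
    (aut M q0 N).cout (s0 M N) w t = .sink := by
  have hH : ∀ k, ((aut M q0 N).col (s0 M N) w (j + 1 + (k + 1))).1 = .H := by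
    intro k
    induction k with
    | zero =>
      change ((aut M q0 N).out (w (j + 1)) ((aut M q0 N).col (s0 M N) w (j + 1))).1 = _
      rw [h.col1 q0 N hq]
      exact (out_F_none M q0 N (h.el 0) hq' _).1
    | succ k ih =>
      change ((aut M q0 N).out (w (j + 1 + (k + 1)))
        ((aut M q0 N).col (s0 M N) w (j + 1 + (k + 1)))).1 = _
      generalize (aut M q0 N).col (s0 M N) w (j + 1 + (k + 1)) = x at ih ⊢
      obtain ⟨τ, c⟩ := x
      subst ih
      exact (out_H M q0 N (h.el (k + 1)).ne c).1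
  change (aut M q0 N).δ (w t) ((aut M q0 N).col (s0 M N) w t) = _
  rcases Nat.lt_or_ge j t with ht | ht
  · rcases Nat.eq_or_lt_of_le ht with rfl | ht
    · change (aut M q0 N).δ (w (j + 1)) ((aut M q0 N).col (s0 M N) w (j + 1)) = _
      rw [h.col1 q0 N hq]
      exact (out_F_none M q0 N (h.el 0) hq' _).2
    · obtain ⟨k, rfl⟩ : ∃ k, t = j + 1 + (k + 1) := ⟨t - (j + 2), by omega⟩
      have h1 := hH k
      generalize (aut M q0 N).col (s0 M N) w (j + 1 + (k + 1)) = x at h1 ⊢
      obtain ⟨τ, c⟩ := x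
      subst h1
      exact (out_H M q0 N (h.el (k + 1)).ne c).2
  · rw [h.col0 q0 N t ht]
    rcases Nat.eq_or_lt_of_le ht with rfl | ht
    · exact δ_G M q0 N h.gl _
    · rw [h.lt t ht]
      exact δ_sink M q0 N _

end col

/-- configurations -/
def cfg : ℕ → Option Q × (Bool → ℕ)
  | 0 => (some q0, ini N)
  | j + 1 => match (cfg j).1 with
    | none => cfg j
    | some q => (M.nxt q (M.res (cfg j).2), M.nn q (cfg j).2)

/-- the streams between the places of a blank word -/
def W (j : ℕ) : ℕ → St M := (aut M q0 N).outs (List.replicate j (s0 M N)) fun _ => .p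

theorem W_zero : W M q0 N 0 = fun _ => .p := rfl

theorem W_succ (j : ℕ) : W M q0 N (j + 1) = (aut M q0 N).cout (s0 M N) (W M q0 N j) :=
  (aut M q0 N).outs_replicate_succ _ _ _

theorem dg_zero (n : Bool → ℕ) : dg M n 0 = M.res n := by
  funext b
  apply Fin.ext
  change n b / M.B ^ 0 % M.B = n b % M.B
  rw [pow_zero, Nat.div_one]

theorem src (j : ℕ) (h : (cfg M q0 N j).1 ≠ none) : ∃ (i : Ins M) (m : Bool → ℕ),
    nx M q0 i = (cfg M q0 N j).1 ∧ nm M N i m = (cfg M q0 N j).2 ∧ Src M (W M q0 N j) j i m := by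
  induction j with
  | zero =>
    refine ⟨none, fun _ => 0, rfl, ?_, ⟨fun t ht => by omega, ?_, fun k => ?_⟩⟩
    · funext b
      simp [nm, mul, con, cfg]
    · refine Or.inl ⟨rfl, rfl, fun b => ?_⟩
      change 0 / M.B ^ 0 % M.B = 0
      simp
    · refine Or.inl ⟨rfl, fun b => ?_⟩
      change 0 / M.B ^ (k + 1) % M.B = 0
      simp
  | succ j ih =>
    have h1 : (cfg M q0 N j).1 ≠ none := by
      intro h0
      apply h
      simp only [cfg, h0]
    obtain ⟨i, m, e1, e2, hS⟩ := ih h1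
    obtain ⟨q, hq⟩ := Option.ne_none_iff_exists'.1 h1
    rw [hq] at e1
    have h2 : cfg M q0 N (j + 1) = (M.nxt q (M.res (cfg M q0 N j).2), M.nn q (cfg M q0 N j).2) := by
      simp only [cfg, hq]
    have h3 : dg M (nm M N i m) 0 = M.res (cfg M q0 N j).2 := by rw [dg_zero, e2]
    rw [h2] at h
    obtain ⟨q', hq'⟩ := Option.ne_none_iff_exists'.1 h
    simp only at hq'
    rw [← h3] at hq'
    refine ⟨some (q, dg M (nm M N i m) 0), fun b => nm M N i m b / M.B, ?_, ?_, ?_⟩
    · rw [h2]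
      change M.nxt q (dg M (nm M N i m) 0) = _
      rw [h3]
    · rw [h2]
      funext b
      change M.a q (dg M (nm M N i m) 0) b * (nm M N i m b / M.B) +
        M.b q (dg M (nm M N i m) 0) b = M.a q (M.res (cfg M q0 N j).2) b *
          ((cfg M q0 N j).2 b / M.B) + M.b q (M.res (cfg M q0 N j).2) b
      rw [h3, e2]
    · rw [W_succ]
      exact hS.step q0 N e1 hq'

theorem W_ne (j : ℕ) (h : (cfg M q0 N j).1 ≠ none) : (∀ t < j, W M q0 N j t = .sink) ∧
    ∀ t, j ≤ t → W M q0 N j t ≠ .sink := by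
  obtain ⟨i, m, -, -, hS⟩ := src M q0 N j h
  exact ⟨hS.lt, hS.ne⟩

theorem W_halt (j : ℕ) (h : (cfg M q0 N j).1 ≠ none) (h' : (cfg M q0 N (j + 1)).1 = none)
    (t : ℕ) : W M q0 N (j + 1) t = .sink := by
  obtain ⟨i, m, e1, e2, hS⟩ := src M q0 N j h
  obtain ⟨q, hq⟩ := Option.ne_none_iff_exists'.1 h
  rw [hq] at e1
  have h2 : cfg M q0 N (j + 1) = (M.nxt q (M.res (cfg M q0 N j).2), M.nn q (cfg M q0 N j).2) := by
    simp only [cfg, hq]
  rw [h2] at h'
  rw [W_succ]
  refine hS.halt q0 N e1 ?_ t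
  rw [dg_zero, e2]
  exact h'

theorem halts_cfg (j : ℕ) : M.Halts (cfg M q0 N j).1 (cfg M q0 N j).2 →
    ∃ k, (cfg M q0 N k).1 = none := by
  generalize ho : (cfg M q0 N j).1 = o
  generalize hn : (cfg M q0 N j).2 = n
  intro h
  induction h generalizing j with
  | stop n => exact ⟨j, ho⟩
  | step q n h ih =>
    refine ih (j + 1) ?_ ?_ <;> simp only [cfg, ho, hn]

theorem halts_iff : M.Halts (some q0) (ini N) ↔ ∃ k, (cfg M q0 N k).1 = none := by
  constructor
  · exact halts_cfg M q0 N 0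
  · rintro ⟨k, hk⟩
    have key : ∀ d j, j + d = k → M.Halts (cfg M q0 N j).1 (cfg M q0 N j).2 := by
      intro d
      induction d with
      | zero =>
        intro j hj
        rw [Nat.add_zero] at hj
        subst hj
        rw [hk]
        exact .stop _
      | succ d ih =>
        intro j hj
        have h1 := ih (j + 1) (by omega)
        cases hq : (cfg M q0 N j).1 with
        | none => exact .stop _
        | some q =>
          have h2 : cfg M q0 N (j + 1) =
              (M.nxt q (M.res (cfg M q0 N j).2), M.nn q (cfg M q0 N j).2) := by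
            simp only [cfg, hq]
          rw [h2] at h1
          exact .step _ _ h1
    exact key k 0 (by omega)

end

end Pool.Agent.V11231.WR
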