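import Mathlib

set_option autoImplicit false

/-!
# Mealy automata, reset words, weakly reset automata
-/

namespace Pool.Agent.V11231.WR

/-- A Mealy automaton with the transition function `δ` and the output function `out`. -/
structure Mealy (Q A : Type) where
  δ : Q → A → Q
  out : Q → A → A

namespace Mealy

variable {Q A : Type} (M : Mealy Q A)

/-- The state reached from `q` after reading the word. -/
def run : Q → List A → Q
  | q, [] => q
  | q, a :: u => run (M.δ q a) u

/-- The map of words computed from the state `q`. -/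
def tr : Q → List A → List A
  | _, [] => []
  | q, a :: u => M.out q a :: tr (M.δ q a) u

/-- The reset words: `Q · u` has one element. -/
def Syn : Set (List A) := {u | (Set.range fun q => M.run q u).ncard = 1}

/-- The automaton is weakly reset: it is synchronizing and there is a nonempty two-sided ideal `H` of
the free monoid, contained in the set of the reset words, which is mapped to itself by the maps
computed from the states. -/
def WeaklyReset : Prop :=
  M.Syn.Nonempty ∧ ∃ H : Set (List A), H.Nonempty ∧ H ⊆ M.Syn ∧
    (∀ x ∈ H, ∀ u v : List A, u ++ x ++ v ∈ H) ∧ ∀ q, ∀ x ∈ H, M.tr q x ∈ H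

/-- The finite tables of an automaton: the row of the state `q` contains for each letter `a` the
number of the next state and the number of the output letter. -/
def table {n k : ℕ} (M : Mealy (Fin n) (Fin k)) : List (List (ℕ × ℕ)) :=
  (List.finRange n).map fun q => (List.finRange k).map fun a =>
    ((M.δ q a : ℕ), (M.out q a : ℕ))

theorem mem_syn {u : List A} : u ∈ M.Syn ↔ ∃ p, (∀ q, M.run q u = p) ∧ Nonempty Q := by
  change (Set.range fun q => M.run q u).ncard = 1 ↔ _
  rw [Set.ncard_eq_one]
  constructor
  · rintro ⟨p, hp⟩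
    refine ⟨p, fun q => ?_, ?_⟩
    · have : M.run q u ∈ Set.range fun q => M.run q u := ⟨q, rfl⟩
      rw [hp] at this
      exact this
    · have : p ∈ Set.range fun q => M.run q u := by rw [hp]; rfl
      obtain ⟨q, -⟩ := this
      exact ⟨q⟩
  · rintro ⟨p, hp, ⟨q⟩⟩
    refine ⟨p, ?_⟩
    ext r
    constructor
    · rintro ⟨q', rfl⟩
      exact hp q'
    · rintro rfl
      exact ⟨q, hp q⟩

theorem run_append (q : Q) (u v : List A) : M.run q (u ++ v) = M.run (M.run q u) v := by
  induction u generalizing q with
  | nil => rfl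
  | cons a u ih => exact ih _

theorem tr_append (q : Q) (u v : List A) :
    M.tr q (u ++ v) = M.tr q u ++ M.tr (M.run q u) v := by
  induction u generalizing q with
  | nil => rfl
  | cons a u ih =>
    change M.out q a :: M.tr (M.δ q a) (u ++ v) = _
    rw [ih]
    rfl

/-! ### columns -/

/-- the letter at a place, driven by the stream of states `w` -/
def col (a : A) (w : ℕ → Q) : ℕ → A
  | 0 => a
  | t + 1 => M.out (w t) (col a w t)

/-- the stream of states which leaves the place -/
def cout (a : A) (w : ℕ → Q) : ℕ → Q := fun t => M.δ (w t) (M.col a w t)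

/-- the word at time `t` -/
def word : List A → (ℕ → Q) → ℕ → List A
  | [], _, _ => []
  | a :: u, w, t => M.col a w t :: word u (M.cout a w) t

/-- the stream of states which leaves the word -/
def outs : List A → (ℕ → Q) → ℕ → Q
  | [], w => w
  | a :: u, w => outs u (M.cout a w)

theorem word_zero (u : List A) (w : ℕ → Q) : M.word u w 0 = u := by
  induction u generalizing w with
  | nil => rfl
  | cons a u ih =>
    change a :: M.word u _ 0 = _
    rw [ih]

theorem word_succ (u : List A) (w : ℕ → Q) (t : ℕ) :
    M.word u w (t + 1) = M.tr (w t) (M.word u w t) := by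
  induction u generalizing w with
  | nil => rfl
  | cons a u ih =>
    change M.col a w (t + 1) :: M.word u (M.cout a w) (t + 1) = _
    rw [ih]
    rfl

theorem run_word (u : List A) (w : ℕ → Q) (t : ℕ) :
    M.run (w t) (M.word u w t) = M.outs u w t := by
  induction u generalizing w with
  | nil => rfl
  | cons a u ih =>
    change M.run (M.cout a w t) (M.word u (M.cout a w) t) = _
    rw [ih]
    rfl

theorem outs_append (u v : List A) (w : ℕ → Q) : M.outs (u ++ v) w = M.outs v (M.outs u w) := by
  induction u generalizing w with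
  | nil => rfl
  | cons a u ih => exact ih _

theorem outs_replicate_succ (a : A) (j : ℕ) (w : ℕ → Q) :
    M.outs (List.replicate (j + 1) a) w = M.cout a (M.outs (List.replicate j a) w) := by
  rw [List.replicate_succ', outs_append]
  rfl

/-- shift of a column which is not changed by the first states -/
theorem col_shift (a : A) (w : ℕ → Q) (t0 : ℕ) (h : ∀ t < t0, M.out (w t) a = a) :
    (∀ t ≤ t0, M.col a w t = a) ∧ ∀ t, M.col a w (t0 + t) = M.col a (fun t => w (t0 + t)) t := by
  have h1 : ∀ t ≤ t0, M.col a w t = a := by
    intro t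
    induction t with
    | zero => intro _; rfl
    | succ t ih =>
      intro ht
      change M.out (w t) (M.col a w t) = a
      rw [ih (by omega)]
      exact h t (by omega)
  refine ⟨h1, fun t => ?_⟩
  induction t with
  | zero => exact h1 t0 le_rfl
  | succ t ih =>
    change M.out (w (t0 + t)) (M.col a w (t0 + t)) = M.out (w (t0 + t)) _
    rw [ih]

/-! ### isomorphic automata -/

variable {Q' A' : Type} (e : Q ≃ Q') (f : A ≃ A')

/-- renaming of the states and letters -/
def map : Mealy Q' A' where
  δ q a := e (M.δ (e.symm q) (f.symm a))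
  out q a := f (M.out (e.symm q) (f.symm a))

theorem run_map (q : Q) (u : List A) : (M.map e f).run (e q) (u.map f) = e (M.run q u) := by
  induction u generalizing q with
  | nil => rfl
  | cons a u ih =>
    change (M.map e f).run (e (M.δ (e.symm (e q)) (f.symm (f a)))) (u.map f) = _
    rw [e.symm_apply_apply, f.symm_apply_apply, ih]
    rfl

theorem tr_map (q : Q) (u : List A) : (M.map e f).tr (e q) (u.map f) = (M.tr q u).map f := by
  induction u generalizing q with
  | nil => rfl
  | cons a u ih =>
    change f (M.out (e.symm (e q)) (f.symm (f a))) ::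
      (M.map e f).tr (e (M.δ (e.symm (e q)) (f.symm (f a)))) (u.map f) = _
    rw [e.symm_apply_apply, f.symm_apply_apply, ih]
    rfl

theorem syn_map (u : List A) : u.map f ∈ (M.map e f).Syn ↔ u ∈ M.Syn := by
  rw [mem_syn, mem_syn]
  constructor
  · rintro ⟨p, hp, ⟨q'⟩⟩
    refine ⟨e.symm p, fun q => ?_, ⟨e.symm q'⟩⟩
    rw [← hp (e q), run_map, e.symm_apply_apply]
  · rintro ⟨p, hp, ⟨q⟩⟩
    refine ⟨e p, fun q' => ?_, ⟨e q⟩⟩
    obtain ⟨q, rfl⟩ := e.surjective q'
    rw [run_map, hp]

theorem weaklyReset_map (h : M.WeaklyReset) : (M.map e f).WeaklyReset := by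
  obtain ⟨⟨u, hu⟩, H, ⟨x, hx⟩, h1, h2, h3⟩ := h
  refine ⟨⟨u.map f, (M.syn_map e f u).2 hu⟩, List.map f '' H, ⟨_, x, hx, rfl⟩, ?_, ?_, ?_⟩
  · rintro _ ⟨y, hy, rfl⟩
    exact (M.syn_map e f y).2 (h1 hy)
  · rintro _ ⟨y, hy, rfl⟩ u v
    refine ⟨u.map f.symm ++ y ++ v.map f.symm, h2 y hy _ _, ?_⟩
    simp [List.map_map]
  · rintro q _ ⟨y, hy, rfl⟩
    obtain ⟨q, rfl⟩ := e.surjective q
    exact ⟨_, h3 q y hy, (M.tr_map e f q y).symm⟩

theorem weaklyReset_map_iff : (M.map e f).WeaklyReset ↔ M.WeaklyReset := by
  refine ⟨fun h => ?_, M.weaklyReset_map e f⟩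
  have h1 := (M.map e f).weaklyReset_map e.symm f.symm h
  have h2 : (M.map e f).map e.symm f.symm = M := by
    cases M
    simp [map]
  rwa [h2] at h1

end Mealy

end Pool.Agent.V11231.WR
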